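import Mathlib

/-!
# The `ℓ`-adic cohomology of smooth projective varieties, products, powers and Tate classes

The total cohomology `H(X) = ⊕ H ^ j(X)` of a smooth projective variety `X` over a field `k`, with
coefficients in the algebraic closure `E` of the field of `ℓ`-adic numbers, is considered with the
operators `t ^ j * g` on `H ^ j(X)`, for all pairs `(g, t)` of a Galois automorphism `g` and an element
`t` of `E` whose square is the value of the cyclotomic character at `g`. A class is fixed by all these
operators if and only if it is a sum of Tate classes: its components in odd degrees are `0`, and its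
component in `H ^ (2 i)(X)` is a Galois invariant element of `H ^ (2 i)(X)(i)`.
-/

namespace Pool.Agent.K4H35.TN

open Matrix

noncomputable section

/-- The cohomology `H(X)` of a smooth projective variety `X`, in a basis `ι`, with the operators
`act θ`, where `θ = (g, t)`, and the unit class in `H ^ 0(X)`. -/
structure Cohomology (T E : Type) where
  /-- the basis -/
  ι : Type
  [fintype : Fintype ι]
  [decEq : DecidableEq ι]
  /-- the operators `t ^ j * g` on `H ^ j(X)`, for the pairs `θ = (g, t)` -/
  act : T → Matrix ι ι E
  /-- the unit class -/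
  one : ι → E

attribute [instance] Cohomology.fintype Cohomology.decEq

variable {T E : Type} [Field E]

/-- The class `x` is a (sum of) Tate classes: it is fixed by the operators. -/
def IsTate (X : Cohomology T E) (x : X.ι → E) : Prop := ∀ θ, X.act θ *ᵥ x = x

/-- The cohomology of `X` is semisimple: every stable subspace has a stable complement. -/
def IsSemisimple (X : Cohomology T E) : Prop :=
  ∀ U : Submodule E (X.ι → E), (∀ θ, ∀ x ∈ U, X.act θ *ᵥ x ∈ U) →
    ∃ U' : Submodule E (X.ι → E), (∀ θ, ∀ x ∈ U', X.act θ *ᵥ x ∈ U') ∧ IsCompl U U'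

/-- Poincaré duality and the unit class: `H(X)` has a nondegenerate invariant bilinear form, and the
unit class is not zero and is a Tate class. -/
structure IsDual (X : Cohomology T E) : Prop where
  one_ne : X.one ≠ 0
  one_tate : IsTate X X.one
  form : ∃ Q : Matrix X.ι X.ι E, Q.det ≠ 0 ∧ ∀ θ, (X.act θ)ᵀ * Q * X.act θ = Q

/-- The cohomology of the product of two varieties (formula of Künneth). -/
def Cohomology.prod (X X' : Cohomology T E) : Cohomology T E where
  ι := X.ι × X'.ι
  act θ := Matrix.of fun p q => X.act θ p.1 q.1 * X'.act θ p.2 q.2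
  one p := X.one p.1 * X'.one p.2

/-- The cohomology of the power `X ^ N`. -/
def Cohomology.pow (X : Cohomology T E) (N : ℕ) : Cohomology T E where
  ι := Fin N → X.ι
  act θ := Matrix.of fun u w => ∏ k, X.act θ (u k) (w k)
  one u := ∏ k, X.one (u k)

/-- The linear map `F : H(X) → H(X')` commutes with the operators. By Poincaré duality these
are the Tate classes on `X × X'`. -/
def IsCorrespondence (X X' : Cohomology T E) (F : Matrix X'.ι X.ι E) : Prop :=
  ∀ θ, X'.act θ * F = F * X.act θ

/-- The class on `A × Y ^ N` obtained from the class `G` on `A × B ^ t` by the correspondence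
`id × F (c 0) × ... × F (c (t - 1))`, where `F i` is a correspondence from `B` to `Y ^ (n i)` and `e`
numbers the factors of `Y ^ N`. -/
def transfer {A B Y : Cohomology T E} {m : ℕ} {n : Fin m → ℕ}
    (F : ∀ i, Matrix (Fin (n i) → Y.ι) B.ι E) {N t : ℕ} (c : Fin t → Fin m)
    (e : (Σ s, Fin (n (c s))) ≃ Fin N) (G : A.ι × (Fin t → B.ι) → E) :
    A.ι × (Fin N → Y.ι) → E :=
  fun p => ∑ u, G (p.1, u) * ∏ s, F (c s) (fun a => p.2 (e ⟨s, a⟩)) (u s)

/-- The combinations of the classes on `A × Y ^ N` which are obtained from Tate classes on the
varieties `A × B ^ t` by the products of the correspondences `F i`. -/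
def transferredClasses (A B Y : Cohomology T E) {m : ℕ} {n : Fin m → ℕ}
    (F : ∀ i, Matrix (Fin (n i) → Y.ι) B.ι E) (N : ℕ) :
    Submodule E (A.ι × (Fin N → Y.ι) → E) :=
  Submodule.span E {x | ∃ (t : ℕ) (c : Fin t → Fin m) (e : (Σ s, Fin (n (c s))) ≃ Fin N)
    (G : A.ι × (Fin t → B.ι) → E), IsTate (A.prod (B.pow t)) G ∧ x = transfer F c e G}

end

end Pool.Agent.K4H35.TN
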