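import Mathlib

/-!
# Semisimple families of operators
-/

set_option linter.unusedSectionVars false

namespace Pool.Agent.K4H35.TN

noncomputable section

variable {T E : Type} [Field E] {V W A : Type} [AddCommGroup V] [Module E V] [AddCommGroup W]
  [Module E W] [AddCommGroup A] [Module E A]

/-- The subspace `U` is stable under the operators `f θ`. -/
def Stb (f : T → V →ₗ[E] V) (U : Submodule E V) : Prop := ∀ θ, ∀ x ∈ U, f θ x ∈ U

/-- All stable subspaces have stable complements. -/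
def SS (f : T → V →ₗ[E] V) : Prop := ∀ U, Stb f U → ∃ U', Stb f U' ∧ IsCompl U U'

variable {f : T → V →ₗ[E] V} {g : T → W →ₗ[E] W} {h : T → A →ₗ[E] A}

theorem exists_add {U U' : Submodule E V} (h : IsCompl U U') (x : V) :
    ∃ u ∈ U, ∃ u' ∈ U', x = u + u' := by
  have h1 : x ∈ U ⊔ U' := by
    rw [h.sup_eq_top]
    exact Submodule.mem_top
  obtain ⟨u, hu, u', hu', h2⟩ := Submodule.mem_sup.1 h1
  exact ⟨u, hu, u', hu', h2.symm⟩

theorem eq_zero {U U' : Submodule E V} (h : IsCompl U U') {x : V} (hx : x ∈ U) (hx' : x ∈ U') :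
    x = 0 := Submodule.disjoint_def.1 h.disjoint x hx hx'

theorem isCompl_mk {U U' : Submodule E V} (h : ∀ x ∈ U, x ∈ U' → x = 0)
    (h' : ∀ x, ∃ u ∈ U, ∃ u' ∈ U', x = u + u') : IsCompl U U' := by
  refine ⟨Submodule.disjoint_def.2 h, codisjoint_iff.2 ?_⟩
  rw [eq_top_iff]
  intro x _
  obtain ⟨u, hu, u', hu', rfl⟩ := h' x
  exact Submodule.add_mem_sup hu hu'

theorem SS.prod (hf : SS f) (hg : SS g) : SS fun θ => (f θ).prodMap (g θ) := by
  intro U hU
  obtain ⟨C1, hC1, h1⟩ := hf (U.comap (LinearMap.inl E V W)) fun θ x hx => by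
    have h2 := hU θ _ hx
    have h3 : ((f θ).prodMap (g θ)) (LinearMap.inl E V W x) = LinearMap.inl E V W (f θ x) := by
      change (f θ x, g θ 0) = (f θ x, 0)
      rw [map_zero]
    rw [h3] at h2
    exact h2
  obtain ⟨C2, hC2, h2⟩ := hg (U.map (LinearMap.snd E V W)) fun θ x hx => by
    obtain ⟨p, hp, rfl⟩ := hx
    exact ⟨_, hU θ p hp, rfl⟩
  refine ⟨C1.prod C2, fun θ x hx => ⟨hC1 θ _ hx.1, hC2 θ _ hx.2⟩, isCompl_mk ?_ ?_⟩
  · rintro ⟨v, w⟩ hx ⟨hv, hw⟩
    have h3 : w = 0 := eq_zero h2 ⟨_, hx, rfl⟩ hw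
    subst h3
    have h4 : v = 0 := eq_zero h1 hx hv
    rw [h4]
    rfl
  · rintro ⟨v, w⟩
    obtain ⟨_, ⟨⟨v', w'⟩, hp, rfl⟩, c2, hc2, h3⟩ := exists_add h2 w
    obtain ⟨u1, hu1, c1, hc1, h4⟩ := exists_add h1 (v - v')
    refine ⟨(v', w') + (u1, 0), U.add_mem hp hu1, (c1, c2), ⟨hc1, hc2⟩, ?_⟩
    have h5 : v = v' + (u1 + c1) := by rw [← h4, add_sub_cancel]
    have h6 : w = w' + c2 := h3
    rw [h5, h6]
    change _ = (v' + u1 + c1, w' + 0 + c2)
    rw [add_zero, add_assoc]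

/-- Invariant vectors in the image of an equivariant map come from invariant vectors. -/
theorem exists_inv (hf : SS f) {Φ : V →ₗ[E] W} (hΦ : ∀ θ x, Φ (f θ x) = g θ (Φ x)) {x : V}
    (hinv : ∀ θ, g θ (Φ x) = Φ x) : ∃ v, (∀ θ, f θ v = v) ∧ Φ v = Φ x := by
  obtain ⟨K, hK, h1⟩ := hf (LinearMap.ker Φ) fun θ y hy => by
    rw [LinearMap.mem_ker] at hy ⊢
    rw [hΦ, hy, map_zero]
  obtain ⟨k, hk, k', hk', rfl⟩ := exists_add h1 x
  rw [LinearMap.mem_ker] at hk
  rw [map_add, hk, zero_add] at hinv ⊢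
  refine ⟨k', fun θ => ?_, rfl⟩
  refine sub_eq_zero.1 (eq_zero h1 ?_ (K.sub_mem (hK θ k' hk') hk'))
  rw [LinearMap.mem_ker, map_sub, hΦ, hinv, sub_self]

theorem exists_functional (hf : SS f) {e : V} (he : e ≠ 0) (hinv : ∀ θ, f θ e = e) :
    ∃ ψ : V →ₗ[E] E, (∀ θ x, ψ (f θ x) = ψ x) ∧ ψ e = 1 := by
  have hfix : ∀ θ, ∀ u ∈ Submodule.span E {e}, f θ u = u := by
    intro θ u hu
    obtain ⟨c, rfl⟩ := Submodule.mem_span_singleton.1 hu
    rw [map_smul, hinv]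
  obtain ⟨U', hU', h1⟩ := hf (Submodule.span E {e}) fun θ x hx => by
    rw [hfix θ x hx]
    exact hx
  obtain ⟨φ, hφ⟩ : ∃ φ : V →ₗ[E] E, φ e = 1 := by
    obtain ⟨φ, hφ⟩ : ∃ φ : Module.Dual E V, φ e ≠ 0 := by
      by_contra hcon
      push Not at hcon
      exact he ((Module.forall_dual_apply_eq_zero_iff E e).1 hcon)
    exact ⟨(φ e)⁻¹ • φ, by
      rw [LinearMap.smul_apply, smul_eq_mul, inv_mul_cancel₀ hφ]⟩
  let p := Submodule.projectionOnto _ _ h1
  have hp : ∀ u ∈ Submodule.span E {e}, ∀ u' ∈ U', (p (u + u') : V) = u := by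
    intro u hu u' hu'
    rw [map_add]
    have h2 : p u = ⟨u, hu⟩ := Submodule.projectionOnto_apply_left h1 ⟨u, hu⟩
    have h3 : p u' = 0 := Submodule.projectionOnto_apply_of_mem_right h1 hu'
    rw [h2, h3, add_zero]
  refine ⟨(φ.comp (Submodule.subtype _)).comp p, fun θ x => ?_, ?_⟩
  · obtain ⟨u, hu, u', hu', rfl⟩ := exists_add h1 x
    change φ (p (f θ (u + u')) : V) = φ (p (u + u') : V)
    rw [map_add (f θ), hfix θ u hu, hp u hu u' hu', hp u hu _ (hU' θ u' hu')]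
  · change φ (p e : V) = 1
    have h2 := hp e (Submodule.mem_span_singleton_self e) 0 U'.zero_mem
    rw [add_zero] at h2
    rw [h2, hφ]

/-- If there are no nonzero equivariant maps from `A` to the stable subspace `C` then all
equivariant maps to `A` vanish on `C`. -/
theorem adj_zero (hf : SS f) (hh : SS h) {G : V →ₗ[E] A} (hG : ∀ θ x, G (f θ x) = h θ (G x))
    {C : Submodule E V} (hC : Stb f C) (hno : ∀ H : A →ₗ[E] V, (∀ θ x, H (h θ x) = f θ (H x)) →
      (∀ a, H a ∈ C) → H = 0) {c : V} (hc : c ∈ C) : G c = 0 := by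
  obtain ⟨D, hD, h1⟩ := hf (C ⊓ LinearMap.ker G) fun θ y hy => by
    refine ⟨hC θ y hy.1, ?_⟩
    have h2 : G y = 0 := hy.2
    change G (f θ y) = 0
    rw [hG, h2, map_zero]
  obtain ⟨U', hU', h2⟩ := hh (C.map G) fun θ y hy => by
    obtain ⟨x, hx, rfl⟩ := hy
    exact ⟨f θ x, hC θ x hx, hG θ x⟩
  let G' : (C ⊓ D : Submodule E V) →ₗ[E] (C.map G : Submodule E A) :=
    (G.comp (Submodule.subtype _)).codRestrict _ fun d => ⟨d, d.2.1, rfl⟩
  have hbij : Function.Bijective G' := by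
    constructor
    · intro d d' hd
      have h3 : G (d - d' : V) = 0 := by
        rw [map_sub]
        exact sub_eq_zero.2 (congrArg Subtype.val hd)
      have h4 : (d - d' : V) = 0 := eq_zero h1 ⟨C.sub_mem d.2.1 d'.2.1, h3⟩
        (D.sub_mem d.2.2 d'.2.2)
      exact Subtype.ext (sub_eq_zero.1 h4)
    · rintro ⟨_, x, hx, rfl⟩
      obtain ⟨k, hk, d, hd, rfl⟩ := exists_add h1 x
      have h3 : d ∈ C := by
        have h4 := C.sub_mem hx hk.1
        rwa [add_sub_cancel_left] at h4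
      refine ⟨⟨d, h3, hd⟩, Subtype.ext ?_⟩
      change G d = G (k + d)
      have h5 : G k = 0 := hk.2
      rw [map_add, h5, zero_add]
  let e := LinearEquiv.ofBijective G' hbij
  let p := Submodule.projectionOnto _ _ h2
  have hp : ∀ u : (C.map G : Submodule E A), ∀ u' ∈ U', p (u + u') = u := by
    intro u u' hu'
    rw [map_add]
    have h3 : p u = u := Submodule.projectionOnto_apply_left h2 u
    have h4 : p u' = 0 := Submodule.projectionOnto_apply_of_mem_right h2 hu'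
    rw [h3, h4, add_zero]
  let H : A →ₗ[E] V := ((Submodule.subtype _).comp e.symm.toLinearMap).comp p
  have hH : ∀ (d : V) (hd : d ∈ C ⊓ D) (u' : A), u' ∈ U' → H (G d + u') = d := by
    intro d hd u' hu'
    have h3 : (⟨G d, d, hd.1, rfl⟩ : (C.map G : Submodule E A)) = e ⟨d, hd⟩ := rfl
    have h4 := hp ⟨G d, d, hd.1, rfl⟩ u' hu'
    change ((e.symm (p (G d + u')) : (C ⊓ D : Submodule E V)) : V) = d
    rw [h4, h3, LinearEquiv.symm_apply_apply]
  have hsplit : ∀ a : A, ∃ d ∈ C ⊓ D, ∃ u' ∈ U', a = G d + u' := by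
    intro a
    obtain ⟨u, hu, u', hu', rfl⟩ := exists_add h2 a
    obtain ⟨⟨d, hd⟩, h3⟩ := hbij.2 ⟨u, hu⟩
    refine ⟨d, hd, u', hu', ?_⟩
    have h4 : G d = u := congrArg Subtype.val h3
    rw [h4]
  have h0 : H = 0 := by
    refine hno H (fun θ a => ?_) (fun a => (e.symm (p a)).2.1)
    obtain ⟨d, hd, u', hu', rfl⟩ := hsplit a
    rw [hH d hd u' hu', map_add, ← hG, hH (f θ d) ⟨hC θ d hd.1, hD θ d hd.2⟩ _ (hU' θ u' hu')]
  obtain ⟨d, hd, u', hu', h3⟩ := hsplit (G c)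
  have h4 := hH d hd u' hu'
  rw [← h3, h0, LinearMap.zero_apply] at h4
  have h5 : G c = u' := by rw [h3, ← h4, map_zero, zero_add]
  refine eq_zero h2 ⟨c, hc, rfl⟩ ?_
  rw [h5]
  exact hu'

end

end Pool.Agent.K4H35.TN
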