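import Mathlib
import Pool.Agent.K4H35.ST.PTen
import Pool.Agent.K4H35.TN.Defs
import Pool.Agent.K4H35.TN.SS

/-!
# The part of the cohomology which comes from a class of varieties
-/

set_option linter.unusedSectionVars false

namespace Pool.Agent.K4H35.TN

open Matrix Pool.Agent.K4H35.ST

open scoped Kronecker

noncomputable section

variable {T E : Type} [Field E]

section mor

variable {κ κ' κ'' : Type} [Fintype κ] [DecidableEq κ] [Fintype κ'] [DecidableEq κ']
  [Fintype κ''] [DecidableEq κ''] {f : T → Matrix κ κ E} {f' : T → Matrix κ' κ' E}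
  {f'' : T → Matrix κ'' κ'' E}

/-- Equivariant matrices. -/
def Eqv (f : T → Matrix κ κ E) (f' : T → Matrix κ' κ' E) (F : Matrix κ' κ E) : Prop :=
  ∀ θ, f' θ * F = F * f θ

theorem Eqv.comp {F : Matrix κ' κ E} {F' : Matrix κ'' κ' E} (h : Eqv f f' F)
    (h' : Eqv f' f'' F') : Eqv f f'' (F' * F) := fun θ => by
  rw [← Matrix.mul_assoc, h' θ, Matrix.mul_assoc, h θ, Matrix.mul_assoc]

theorem Eqv.one (f : T → Matrix κ κ E) : Eqv f f 1 := fun θ => by
  rw [Matrix.mul_one, Matrix.one_mul]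

theorem Eqv.kron {κ1 κ1' : Type} [Fintype κ1] [DecidableEq κ1] [Fintype κ1'] [DecidableEq κ1']
    {f1 : T → Matrix κ1 κ1 E} {f1' : T → Matrix κ1' κ1' E} {F : Matrix κ1 κ E}
    {F' : Matrix κ1' κ' E} (h : Eqv f f1 F) (h' : Eqv f' f1' F') :
    Eqv (fun θ => f θ ⊗ₖ f' θ) (fun θ => f1 θ ⊗ₖ f1' θ) (F ⊗ₖ F') := fun θ => by
  change (f1 θ ⊗ₖ f1' θ) * (F ⊗ₖ F') = (F ⊗ₖ F') * (f θ ⊗ₖ f' θ)
  rw [← mul_kronecker_mul, ← mul_kronecker_mul, h θ, h' θ]

theorem Eqv.mulVec {F : Matrix κ' κ E} (h : Eqv f f' F) (θ : T) (x : κ → E) :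
    F *ᵥ (f θ *ᵥ x) = f' θ *ᵥ (F *ᵥ x) := by
  rw [mulVec_mulVec, mulVec_mulVec, h θ]

variable (S : Set (Cohomology T E))

/-- The part which comes from the varieties in `S`. -/
def SP (f : T → Matrix κ κ E) : Submodule E (κ → E) :=
  Submodule.span E {y | ∃ A ∈ S, ∃ F : Matrix κ A.ι E, Eqv A.act f F ∧ ∃ a, y = F *ᵥ a}

variable {S}

theorem mem_SP {A : Cohomology T E} (hA : A ∈ S) {F : Matrix κ A.ι E}
    (hF : Eqv A.act f F) (a : A.ι → E) : F *ᵥ a ∈ SP S f :=
  Submodule.subset_span ⟨A, hA, F, hF, a, rfl⟩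

theorem SP_stable {x : κ → E} (hx : x ∈ SP S f) (θ : T) : f θ *ᵥ x ∈ SP S f := by
  refine Submodule.span_induction (p := fun x _ => f θ *ᵥ x ∈ SP S f) ?_ ?_ ?_ ?_ hx
  · rintro _ ⟨A, hA, F, hF, a, rfl⟩
    rw [← hF.mulVec]
    exact mem_SP hA hF _
  · rw [mulVec_zero]
    exact Submodule.zero_mem _
  · intro x y _ _ h1 h2
    rw [mulVec_add]
    exact Submodule.add_mem _ h1 h2
  · intro r x _ h1
    rw [mulVec_smul]
    exact Submodule.smul_mem _ _ h1

/-- Equivariant bilinear maps. -/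
theorem SP_bilin (hS : ∀ X ∈ S, ∀ X' ∈ S, X.prod X' ∈ S)
    {B : (κ → E) →ₗ[E] (κ' → E) →ₗ[E] (κ'' → E)}
    (hB : ∀ θ x y, B (f θ *ᵥ x) (f' θ *ᵥ y) = f'' θ *ᵥ B x y)
    {x : κ → E} (hx : x ∈ SP S f) {y : κ' → E} (hy : y ∈ SP S f') : B x y ∈ SP S f'' := by
  refine Submodule.span_induction (p := fun x _ => B x y ∈ SP S f'') ?_ ?_ ?_ ?_ hx
  · rintro _ ⟨A, hA, F, hF, a, rfl⟩
    refine Submodule.span_induction (p := fun y _ => B (F *ᵥ a) y ∈ SP S f'') ?_ ?_ ?_ ?_ hy
    · rintro _ ⟨A', hA', F', hF', a', rfl⟩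
      have hcomb : ∀ (a : A.ι → E) (a' : A'.ι → E), B (F *ᵥ a) (F' *ᵥ a') =
          (Matrix.of fun v (p : A.ι × A'.ι) => B (fun u => F u p.1) (fun w => F' w p.2) v) *ᵥ
            fun p => a p.1 * a' p.2 := by
        intro a a'
        have h3 : F *ᵥ a = ∑ i, a i • fun u => F u i := by
          funext u
          rw [Finset.sum_apply]
          exact Finset.sum_congr rfl fun i _ => mul_comm _ _
        have h4 : F' *ᵥ a' = ∑ i, a' i • fun u => F' u i := by
          funext u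
          rw [Finset.sum_apply]
          exact Finset.sum_congr rfl fun i _ => mul_comm _ _
        rw [h3, h4]
        simp only [map_sum, map_smul, LinearMap.sum_apply, LinearMap.smul_apply]
        funext v
        simp only [Finset.sum_apply, Pi.smul_apply, smul_eq_mul, mulVec, dotProduct, of_apply]
        rw [Fintype.sum_prod_type, Finset.sum_comm]
        refine Finset.sum_congr rfl fun i _ => ?_
        rw [Finset.mul_sum]
        refine Finset.sum_congr rfl fun j _ => ?_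
        ring
      have h1 : Eqv (A.prod A').act f'' (Matrix.of fun v (p : A.ι × A'.ι) =>
          B (fun u => F u p.1) (fun w => F' w p.2) v) := by
        intro θ
        ext v p
        have e1 : (fun u => F u p.1) = F *ᵥ Pi.single p.1 1 := by
          rw [mulVec_single_one]
          rfl
        have e2 : (fun w => F' w p.2) = F' *ᵥ Pi.single p.2 1 := by
          rw [mulVec_single_one]
          rfl
        have h5 : (f'' θ * (Matrix.of fun v (p : A.ι × A'.ι) =>
            B (fun u => F u p.1) (fun w => F' w p.2) v)) v p =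
            (f'' θ *ᵥ B (fun u => F u p.1) (fun w => F' w p.2)) v := rfl
        refine h5.trans ?_
        rw [← hB, e1, e2, ← hF.mulVec, ← hF'.mulVec, hcomb]
        change ∑ q : A.ι × A'.ι, _ = ∑ q : A.ι × A'.ι, _
        refine Finset.sum_congr rfl fun q _ => ?_
        rw [mulVec_single_one, mulVec_single_one]
        rfl
      rw [hcomb]
      exact mem_SP (hS A hA A' hA') h1 _
    · rw [map_zero]
      exact Submodule.zero_mem _
    · intro x y _ _ h1 h2
      rw [map_add]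
      exact Submodule.add_mem _ h1 h2
    · intro r x _ h1
      rw [map_smul]
      exact Submodule.smul_mem _ _ h1
  · rw [map_zero]
    exact Submodule.zero_mem _
  · intro x y _ _ h1 h2
    rw [map_add]
    exact Submodule.add_mem _ h1 h2
  · intro r x _ h1
    rw [map_smul]
    exact Submodule.smul_mem _ _ h1

end mor

section words

variable {C : Type} [Fintype C] [DecidableEq C] {k l n : ℕ} {S : Set (Cohomology T E)}

/-- The action on the tensors. -/
def pw (f : T → Matrix C C E) (n : ℕ) : T → Matrix (Fin n → C) (Fin n → C) E :=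
  fun θ => powM n (f θ)

/-- The product of tensors as a bilinear map. -/
def prB (e : Fin k ⊕ Fin l ≃ Fin n) :
    ((Fin k → C) → E) →ₗ[E] ((Fin l → C) → E) →ₗ[E] ((Fin n → C) → E) :=
  LinearMap.mk₂ E (fun b r => pr e b r)
    (fun b b' r => by funext w; exact add_mul _ _ _)
    (fun c b r => by funext w; exact mul_assoc _ _ _)
    (fun b r r' => map_add _ _ _) (fun c b r => map_smul _ _ _)

theorem prB_apply (e : Fin k ⊕ Fin l ≃ Fin n) (b : (Fin k → C) → E) (r : (Fin l → C) → E) :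
    prB e b r = pr e b r := rfl

theorem powM_glue_mulVec (e : Fin k ⊕ Fin l ≃ Fin n) (M : Matrix C C E) (y : (Fin n → C) → E)
    (u : Fin k → C) (v : Fin l → C) : (powM n M *ᵥ y) (glue e u v) =
      ∑ v', powM l M v v' * (powM k M *ᵥ fun u' => y (glue e u' v')) u := by
  rw [mulVec, dotProduct, sum_glue e, Finset.sum_comm]
  refine Finset.sum_congr rfl fun v' _ => ?_
  rw [mulVec, dotProduct, Finset.mul_sum]
  refine Finset.sum_congr rfl fun u' _ => ?_
  rw [powM_glue]
  ring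

theorem powM_pr (e : Fin k ⊕ Fin l ≃ Fin n) (M : Matrix C C E) (b : (Fin k → C) → E)
    (r : (Fin l → C) → E) : pr e (powM k M *ᵥ b) (powM l M *ᵥ r) = powM n M *ᵥ pr e b r := by
  refine ext_glue e fun u v => ?_
  rw [powM_glue_mulVec, pr_glue, mul_comm]
  rw [mulVec, dotProduct, Finset.sum_mul]
  refine Finset.sum_congr rfl fun v' _ => ?_
  rw [mul_assoc]
  congr 1
  have h1 : (fun u' => pr e b r (glue e u' v')) = r v' • b := by
    funext u'
    rw [pr_glue, Pi.smul_apply, smul_eq_mul, mul_comm]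
  rw [h1, mulVec_smul, Pi.smul_apply, smul_eq_mul]

theorem pr_SP (hS : ∀ X ∈ S, ∀ X' ∈ S, X.prod X' ∈ S) {f : T → Matrix C C E}
    (e : Fin k ⊕ Fin l ≃ Fin n) {b : (Fin k → C) → E} (hb : b ∈ SP S (pw f k))
    {r : (Fin l → C) → E} (hr : r ∈ SP S (pw f l)) : pr e b r ∈ SP S (pw f n) := by
  rw [← prB_apply]
  exact SP_bilin hS (fun θ x y => powM_pr e (f θ) x y) hb hr

/-- The contraction with a tensor, for the bilinear form `Q`. -/
def contr (Q : Matrix C C E) (e : Fin k ⊕ Fin l ≃ Fin n) (b : (Fin k → C) → E)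
    (y : (Fin n → C) → E) : (Fin l → C) → E :=
  fun v => (b ᵥ* powM k Q) ⬝ᵥ fun u => y (glue e u v)

/-- The contraction as a bilinear map. -/
def contrB (Q : Matrix C C E) (e : Fin k ⊕ Fin l ≃ Fin n) :
    ((Fin k → C) → E) →ₗ[E] ((Fin n → C) → E) →ₗ[E] ((Fin l → C) → E) :=
  LinearMap.mk₂ E (fun b y => contr Q e b y)
    (fun b b' y => by
      funext v
      change ((b + b') ᵥ* powM k Q) ⬝ᵥ _ = _ + _
      rw [add_vecMul, add_dotProduct]
      rfl)
    (fun c b y => by
      funext v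
      change ((c • b) ᵥ* powM k Q) ⬝ᵥ _ = c • _
      rw [smul_vecMul, smul_dotProduct]
      rfl)
    (fun b y y' => by
      funext v
      exact dotProduct_add _ _ _)
    (fun c b y => by
      funext v
      exact dotProduct_smul _ _ _)

theorem contrB_apply (Q : Matrix C C E) (e : Fin k ⊕ Fin l ≃ Fin n) (b : (Fin k → C) → E)
    (y : (Fin n → C) → E) : contrB Q e b y = contr Q e b y := rfl

theorem powM_inv {M Q : Matrix C C E} (h : Mᵀ * Q * M = Q) (n : ℕ) :
    (powM n M)ᵀ * powM n Q * powM n M = powM n Q := by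
  have h1 : (powM n M)ᵀ = powM n Mᵀ := rfl
  rw [h1, ← powM_mul, ← powM_mul, h]

theorem powM_contr {M Q : Matrix C C E} (h : Mᵀ * Q * M = Q) (e : Fin k ⊕ Fin l ≃ Fin n)
    (b : (Fin k → C) → E) (y : (Fin n → C) → E) :
    contr Q e (powM k M *ᵥ b) (powM n M *ᵥ y) = powM l M *ᵥ contr Q e b y := by
  funext v
  have h1 : (fun u => (powM n M *ᵥ y) (glue e u v)) =
      ∑ v', powM l M v v' • (powM k M *ᵥ fun u' => y (glue e u' v')) := by
    funext u
    rw [powM_glue_mulVec, Finset.sum_apply]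
    rfl
  change ((powM k M *ᵥ b) ᵥ* powM k Q) ⬝ᵥ _ = _
  rw [h1, dotProduct_sum]
  change _ = ∑ v', powM l M v v' * _
  refine Finset.sum_congr rfl fun v' _ => ?_
  rw [dotProduct_smul, smul_eq_mul]
  congr 1
  rw [dotProduct_mulVec, vecMul_vecMul, ← vecMul_transpose, vecMul_vecMul, ← Matrix.mul_assoc,
    powM_inv h]
  rfl

theorem contr_SP (hS : ∀ X ∈ S, ∀ X' ∈ S, X.prod X' ∈ S) {f : T → Matrix C C E}
    {Q : Matrix C C E} (hQ : ∀ θ, (f θ)ᵀ * Q * f θ = Q) (e : Fin k ⊕ Fin l ≃ Fin n)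
    {b : (Fin k → C) → E} (hb : b ∈ SP S (pw f k)) {y : (Fin n → C) → E}
    (hy : y ∈ SP S (pw f n)) : contr Q e b y ∈ SP S (pw f l) := by
  rw [← contrB_apply]
  exact SP_bilin hS (fun θ x y => powM_contr (hQ θ) e x y) hb hy

theorem dot_pr (Q : Matrix C C E) (e : Fin k ⊕ Fin l ≃ Fin n) (b : (Fin k → C) → E)
    (x : (Fin l → C) → E) (y : (Fin n → C) → E) :
    pr e b x ⬝ᵥ (powM n Q *ᵥ y) = x ⬝ᵥ (powM l Q *ᵥ contr Q e b y) := by
  rw [dotProduct, sum_glue e, Finset.sum_comm]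
  refine Finset.sum_congr rfl fun v _ => ?_
  simp only [pr_glue, powM_glue_mulVec]
  have h1 : ∀ u, b u * x v * ∑ v', powM l Q v v' * (powM k Q *ᵥ fun u' => y (glue e u' v')) u =
      x v * ∑ v', powM l Q v v' * (b u * (powM k Q *ᵥ fun u' => y (glue e u' v')) u) := by
    intro u
    rw [Finset.mul_sum, Finset.mul_sum]
    refine Finset.sum_congr rfl fun v' _ => ?_
    ring
  simp only [h1]
  rw [← Finset.mul_sum]
  congr 1
  rw [Finset.sum_comm, mulVec, dotProduct]
  refine Finset.sum_congr rfl fun v' _ => ?_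
  rw [← Finset.mul_sum]
  congr 1
  change _ = (b ᵥ* powM k Q) ⬝ᵥ _
  rw [← dotProduct_mulVec]
  rfl

end words

end

end Pool.Agent.K4H35.TN
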