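import Mathlib
import Pool.Agent.K4H35.TN.SPart

/-!
# Common covers, adjoints, products of correspondences
-/

set_option linter.unusedSectionVars false

namespace Pool.Agent.K4H35.TN

open Matrix Module Pool.Agent.K4H35.ST

open scoped Kronecker

noncomputable section

variable {T E : Type} [Field E]

theorem IsSemisimple.ss {X : Cohomology T E} (h : IsSemisimple X) :
    SS fun θ => (X.act θ).mulVecLin := h

theorem exists_psi {X : Cohomology T E} (h : IsSemisimple X) (hd : IsDual X) :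
    ∃ ψ : X.ι → E, (∀ θ, ψ ᵥ* X.act θ = ψ) ∧ ψ ⬝ᵥ X.one = 1 := by
  obtain ⟨φ, h1, h2⟩ := exists_functional h.ss hd.one_ne hd.one_tate
  have h3 : ∀ x : X.ι → E, (fun i => φ (Pi.single i 1)) ⬝ᵥ x = φ x := by
    intro x
    conv_rhs => rw [pi_eq_sum_univ x]
    rw [map_sum, dotProduct]
    refine Finset.sum_congr rfl fun i _ => ?_
    rw [map_smul, smul_eq_mul, mul_comm]
    congr 2
    funext j
    by_cases hj : i = j
    · subst hj
      rw [Pi.single_eq_same, if_pos rfl]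
    · rw [Pi.single_eq_of_ne (Ne.symm hj), if_neg hj]
  refine ⟨fun i => φ (Pi.single i 1), fun θ => ?_, by rw [h3, h2]⟩
  funext i
  have h4 : ((fun i => φ (Pi.single i 1)) ᵥ* X.act θ) i =
      (fun i => φ (Pi.single i 1)) ⬝ᵥ (X.act θ *ᵥ Pi.single i 1) := by
    rw [mulVec_single_one]
    rfl
  rw [h4, h3]
  exact h1 θ _

section nondeg

variable {κ : Type} [Fintype κ] [DecidableEq κ] {S : Set (Cohomology T E)}

theorem act_inv {f Q : Matrix κ κ E} (hQ : Q.det ≠ 0) (h : fᵀ * Q * f = Q) :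
    f * Q⁻¹ * fᵀ = Q⁻¹ := by
  have hu : IsUnit Q.det := isUnit_iff_ne_zero.2 hQ
  have h1 : (Q⁻¹ * fᵀ * Q) * f = 1 := by
    have h2 : (Q⁻¹ * fᵀ * Q) * f = Q⁻¹ * (fᵀ * Q * f) := by simp only [Matrix.mul_assoc]
    rw [h2, h, Matrix.nonsing_inv_mul _ hu]
  have h2 : f * (Q⁻¹ * fᵀ * Q) = 1 := mul_eq_one_comm.1 h1
  have h3 := congrArg (fun Z => Z * Q⁻¹) h2
  simp only [Matrix.mul_assoc, Matrix.mul_nonsing_inv _ hu, Matrix.mul_one, Matrix.one_mul] at h3
  rw [Matrix.mul_assoc]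
  exact h3

theorem nondeg_SP {f : T → Matrix κ κ E} (hss : SS fun θ => (f θ).mulVecLin) {Q : Matrix κ κ E}
    (hQd : Q.det ≠ 0) (hQ : ∀ θ, (f θ)ᵀ * Q * f θ = Q)
    (hS : ∀ A ∈ S, IsSemisimple A ∧ IsDual A) {x : κ → E} (hx : x ∈ SP S f)
    (h : ∀ y ∈ SP S f, x ⬝ᵥ (Q *ᵥ y) = 0) : x = 0 := by
  obtain ⟨C, hC, h1⟩ := hss (SP S f) fun θ y hy => SP_stable hy θ
  have h2 : ∀ m ∈ SP S f, ∀ c ∈ C, m ⬝ᵥ (Q *ᵥ c) = 0 := by
    intro m hm c hc
    refine Submodule.span_induction (p := fun m _ => m ⬝ᵥ (Q *ᵥ c) = 0) ?_ ?_ ?_ ?_ hm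
    · rintro _ ⟨A, hA, F, hF, a, rfl⟩
      obtain ⟨QA, hQAd, hQA⟩ := (hS A hA).2.form
      have huA : IsUnit QA.det := isUnit_iff_ne_zero.2 hQAd
      have hG : ∀ θ, A.act θ * (QA⁻¹ * Fᵀ * Q) = QA⁻¹ * Fᵀ * Q * f θ := by
        intro θ
        have e1 : Fᵀ * (f θ)ᵀ = (A.act θ)ᵀ * Fᵀ := by
          rw [← transpose_mul, ← transpose_mul, hF θ]
        have e2 : QA⁻¹ * Fᵀ * Q * f θ = A.act θ * QA⁻¹ * ((A.act θ)ᵀ * Fᵀ) * Q * f θ := by
          rw [← Matrix.mul_assoc (A.act θ * QA⁻¹), act_inv hQAd (hQA θ)]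
        have e3 : A.act θ * QA⁻¹ * (Fᵀ * (f θ)ᵀ) * Q * f θ =
            A.act θ * QA⁻¹ * Fᵀ * ((f θ)ᵀ * Q * f θ) := by simp only [Matrix.mul_assoc]
        rw [e2, ← e1, e3, hQ θ]
        simp only [Matrix.mul_assoc]
      have h3 : (QA⁻¹ * Fᵀ * Q).mulVecLin c = 0 := by
        refine adj_zero hss (hS A hA).1.ss (G := (QA⁻¹ * Fᵀ * Q).mulVecLin) (C := C) ?_ hC ?_ hc
        · intro θ y
          change (QA⁻¹ * Fᵀ * Q) *ᵥ (f θ *ᵥ y) = A.act θ *ᵥ ((QA⁻¹ * Fᵀ * Q) *ᵥ y)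
          rw [mulVec_mulVec, mulVec_mulVec, hG θ]
        · intro H hH hHC
          have h4 : ∀ b, (LinearMap.toMatrix' H) *ᵥ b = H b := fun b => by
            rw [← Matrix.toLin'_apply, Matrix.toLin'_toMatrix']
          have h5 : Eqv A.act f (LinearMap.toMatrix' H) := by
            intro θ
            refine Matrix.ext_of_mulVec_single fun i => ?_
            rw [← mulVec_mulVec, ← mulVec_mulVec, h4, h4]
            exact (hH θ _).symm
          refine LinearMap.ext fun b => ?_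
          refine eq_zero h1 ?_ (hHC b)
          rw [← h4]
          exact mem_SP hA h5 b
      have h4 : Fᵀ *ᵥ (Q *ᵥ c) = 0 := by
        have h5 : (QA⁻¹ * Fᵀ * Q) *ᵥ c = 0 := h3
        have h6 := congrArg (fun z => QA *ᵥ z) h5
        simp only [mulVec_zero, mulVec_mulVec] at h6
        have h7 : QA * (QA⁻¹ * Fᵀ * Q) = Fᵀ * Q := by
          rw [← Matrix.mul_assoc, ← Matrix.mul_assoc, Matrix.mul_nonsing_inv _ huA,
            Matrix.one_mul]
        rw [h7, ← mulVec_mulVec] at h6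
        exact h6
      rw [dotProduct_comm, dotProduct_mulVec, ← mulVec_transpose, h4, zero_dotProduct]
    · exact zero_dotProduct _
    · intro y z _ _ hy hz
      rw [add_dotProduct, hy, hz, add_zero]
    · intro r y _ hy
      rw [smul_dotProduct, hy, smul_zero]
  have h3 : ∀ y : κ → E, x ⬝ᵥ (Q *ᵥ y) = 0 := by
    intro y
    obtain ⟨m, hm, c, hc, rfl⟩ := exists_add h1 y
    rw [mulVec_add, dotProduct_add, h m hm, h2 x hx c hc, add_zero]
  have h4 : x ᵥ* Q = 0 := by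
    funext i
    have h5 := h3 (Pi.single i 1)
    rw [dotProduct_mulVec, dotProduct_single_one] at h5
    exact h5
  exact Matrix.eq_zero_of_vecMul_eq_zero hQd h4

theorem exists_split {V : Type} [AddCommGroup V] [Module E V] [FiniteDimensional E V]
    (Φ : V →ₗ[E] V →ₗ[E] E) (B : Submodule E V)
    (h : ∀ x ∈ B, (∀ y ∈ B, Φ x y = 0) → x = 0) (x : V) : ∃ b ∈ B, ∀ y ∈ B, Φ (x - b) y = 0 := by
  let T : V →ₗ[E] Dual E B := (LinearMap.lcomp E E B.subtype).comp Φ
  have hT : ∀ (x : V) (y : B), T x y = Φ x y := fun _ _ => rfl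
  have hinj : Function.Injective (T.comp B.subtype) := by
    rw [← LinearMap.ker_eq_bot, LinearMap.ker_eq_bot']
    intro b hb
    apply Subtype.ext
    refine h b.1 b.2 fun y hy => ?_
    have h1 := LinearMap.congr_fun hb ⟨y, hy⟩
    exact h1
  have hsurj : Function.Surjective (T.comp B.subtype) :=
    (LinearMap.injective_iff_surjective_of_finrank_eq_finrank
      (Subspace.dual_finrank_eq (K := E) (V := B)).symm).1 hinj
  obtain ⟨b, hb⟩ := hsurj (T x)
  refine ⟨b.1, b.2, fun y hy => ?_⟩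
  have h1 := LinearMap.congr_fun hb ⟨y, hy⟩
  rw [map_sub, LinearMap.sub_apply, sub_eq_zero]
  exact h1.symm

end nondeg

section cover

variable {S : Set (Cohomology T E)}

theorem prod_fst {X X' : Cohomology T E} {ψ : X'.ι → E} (hψ : ∀ θ, ψ ᵥ* X'.act θ = ψ) :
    Eqv (X.prod X').act X.act
      (Matrix.of fun b (p : X.ι × X'.ι) => if b = p.1 then ψ p.2 else 0) := by
  intro θ
  ext b p
  change ∑ c, X.act θ b c * (if c = p.1 then ψ p.2 else 0) =
    ∑ q : X.ι × X'.ι, (if b = q.1 then ψ q.2 else 0) * (X.act θ q.1 p.1 * X'.act θ q.2 p.2)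
  rw [Fintype.sum_prod_type, Finset.sum_eq_single p.1, Finset.sum_eq_single b]
  · simp only [if_true]
    have h1 := congrFun (hψ θ) p.2
    change ∑ x, ψ x * X'.act θ x p.2 = ψ p.2 at h1
    rw [← h1, Finset.mul_sum]
    exact Finset.sum_congr rfl fun x _ => mul_left_comm _ _ _
  · intro c _ hc
    refine Finset.sum_eq_zero fun x _ => ?_
    rw [if_neg (Ne.symm hc), zero_mul]
  · intro h
    exact absurd (Finset.mem_univ _) h
  · intro c _ hc
    rw [if_neg hc, mul_zero]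
  · intro h
    exact absurd (Finset.mem_univ _) h

theorem prod_snd {X X' : Cohomology T E} {ψ : X.ι → E} (hψ : ∀ θ, ψ ᵥ* X.act θ = ψ) :
    Eqv (X.prod X').act X'.act
      (Matrix.of fun b (p : X.ι × X'.ι) => if b = p.2 then ψ p.1 else 0) := by
  intro θ
  ext b p
  change ∑ c, X'.act θ b c * (if c = p.2 then ψ p.1 else 0) =
    ∑ q : X.ι × X'.ι, (if b = q.2 then ψ q.1 else 0) * (X.act θ q.1 p.1 * X'.act θ q.2 p.2)
  rw [Fintype.sum_prod_type_right, Finset.sum_eq_single p.2, Finset.sum_eq_single b]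
  · simp only [if_true]
    have h1 := congrFun (hψ θ) p.1
    change ∑ x, ψ x * X.act θ x p.1 = ψ p.1 at h1
    rw [← h1, Finset.mul_sum]
    exact Finset.sum_congr rfl fun x _ => by ring
  · intro c _ hc
    refine Finset.sum_eq_zero fun x _ => ?_
    rw [if_neg (Ne.symm hc), zero_mul]
  · intro h
    exact absurd (Finset.mem_univ _) h
  · intro c _ hc
    rw [if_neg hc, mul_zero]
  · intro h
    exact absurd (Finset.mem_univ _) h

/-- A finite set of varieties in `S` is dominated by one variety in `S`. -/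
theorem exists_cover (hne : S.Nonempty) (hSS : ∀ X ∈ S, IsSemisimple X ∧ IsDual X)
    (hS : ∀ X ∈ S, ∀ X' ∈ S, X.prod X' ∈ S) (L : List (Cohomology T E)) (hL : ∀ A ∈ L, A ∈ S) :
    ∃ B ∈ S, ∀ A ∈ L, ∃ π : Matrix A.ι B.ι E, Eqv B.act A.act π ∧ ∀ a, ∃ b, π *ᵥ b = a := by
  induction L with
  | nil =>
    obtain ⟨B, hB⟩ := hne
    exact ⟨B, hB, fun A hA => absurd hA (List.not_mem_nil)⟩
  | cons A0 L ih =>
    obtain ⟨B, hB, h1⟩ := ih fun A hA => hL A (List.mem_cons_of_mem _ hA)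
    have hA0 : A0 ∈ S := hL A0 List.mem_cons_self
    have hfst : ∃ π : Matrix B.ι (B.prod A0).ι E, Eqv (B.prod A0).act B.act π ∧
        ∀ a, ∃ b, π *ᵥ b = a := by
      obtain ⟨ψ, hψ, hψ1⟩ := exists_psi (hSS A0 hA0).1 (hSS A0 hA0).2
      refine ⟨_, prod_fst hψ, fun a => ⟨fun p => a p.1 * A0.one p.2, ?_⟩⟩
      funext b
      change ∑ p : B.ι × A0.ι, (if b = p.1 then ψ p.2 else 0) * (a p.1 * A0.one p.2) = a b
      rw [Fintype.sum_prod_type, Finset.sum_eq_single b]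
      · simp only [if_true]
        calc ∑ x, ψ x * (a b * A0.one x) = a b * ∑ x, ψ x * A0.one x := by
              rw [Finset.mul_sum]
              exact Finset.sum_congr rfl fun x _ => mul_left_comm _ _ _
          _ = a b := by
              change a b * (ψ ⬝ᵥ A0.one) = a b
              rw [hψ1, mul_one]
      · intro c _ hc
        refine Finset.sum_eq_zero fun x _ => ?_
        rw [if_neg (Ne.symm hc), zero_mul]
      · intro h
        exact absurd (Finset.mem_univ _) h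
    have hsnd : ∃ π : Matrix A0.ι (B.prod A0).ι E, Eqv (B.prod A0).act A0.act π ∧
        ∀ a, ∃ b, π *ᵥ b = a := by
      obtain ⟨ψ, hψ, hψ1⟩ := exists_psi (hSS B hB).1 (hSS B hB).2
      refine ⟨_, prod_snd hψ, fun a => ⟨fun p => B.one p.1 * a p.2, ?_⟩⟩
      funext b
      change ∑ p : B.ι × A0.ι, (if b = p.2 then ψ p.1 else 0) * (B.one p.1 * a p.2) = a b
      rw [Fintype.sum_prod_type_right, Finset.sum_eq_single b]
      · simp only [if_true]
        calc ∑ x, ψ x * (B.one x * a b) = (∑ x, ψ x * B.one x) * a b := by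
              rw [Finset.sum_mul]
              exact Finset.sum_congr rfl fun x _ => (mul_assoc _ _ _).symm
          _ = a b := by
              change (ψ ⬝ᵥ B.one) * a b = a b
              rw [hψ1, one_mul]
      · intro c _ hc
        refine Finset.sum_eq_zero fun x _ => ?_
        rw [if_neg (Ne.symm hc), zero_mul]
      · intro h
        exact absurd (Finset.mem_univ _) h
    refine ⟨B.prod A0, hS B hB A0 hA0, fun A hA => ?_⟩
    rcases List.mem_cons.1 hA with rfl | hA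
    · exact hsnd
    · obtain ⟨π, hπ, h2⟩ := h1 A hA
      obtain ⟨π', hπ', h3⟩ := hfst
      refine ⟨π * π', hπ'.comp hπ, fun a => ?_⟩
      obtain ⟨b, hb⟩ := h2 a
      obtain ⟨c, hc⟩ := h3 b
      exact ⟨c, by rw [← mulVec_mulVec, hc, hb]⟩

end cover

section blocks

variable {C : Type} [Fintype C] [DecidableEq C]

/-- The words on a disjoint union. -/
def sigE {t N : ℕ} {κ : Fin t → ℕ} (e : (Σ s, Fin (κ s)) ≃ Fin N) :
    (Fin N → C) ≃ (∀ s, Fin (κ s) → C) where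
  toFun w s a := w (e ⟨s, a⟩)
  invFun v i := v (e.symm i).1 (e.symm i).2
  left_inv w := by
    funext i
    change w (e ⟨(e.symm i).1, (e.symm i).2⟩) = w i
    rw [Sigma.eta, Equiv.apply_symm_apply]
  right_inv v := by
    funext s a
    change v (e.symm (e ⟨s, a⟩)).1 (e.symm (e ⟨s, a⟩)).2 = v s a
    rw [Equiv.symm_apply_apply]

theorem powM_prodT {M : Matrix C C E} {t N : ℕ} {κ : Fin t → ℕ} (e : (Σ s, Fin (κ s)) ≃ Fin N)
    (b : ∀ s, (Fin (κ s) → C) → E) :
    powM N M *ᵥ prodT e b = prodT e fun s => powM (κ s) M *ᵥ b s := by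
  funext w
  change ∑ w' : Fin N → C, (∏ i, M (w i) (w' i)) * ∏ s, b s (fun a => w' (e ⟨s, a⟩)) =
    ∏ s, ∑ v : Fin (κ s) → C, (∏ a, M (w (e ⟨s, a⟩)) (v a)) * b s v
  rw [Finset.prod_univ_sum, Fintype.piFinset_univ]
  refine Fintype.sum_equiv (sigE e) _ _ fun w' => ?_
  rw [← e.prod_comp, Fintype.prod_sigma, ← Finset.prod_mul_distrib]
  rfl

/-- The product of correspondences. -/
def bigF {B : Type} {m : ℕ} {n : Fin m → ℕ} (F : ∀ i, Matrix (Fin (n i) → C) B E) {N t : ℕ}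
    (c : Fin t → Fin m) (e : (Σ s, Fin (n (c s))) ≃ Fin N) :
    Matrix (Fin N → C) (Fin t → B) E :=
  Matrix.of fun w u => ∏ s, F (c s) (fun a => w (e ⟨s, a⟩)) (u s)

theorem eqv_bigF {B : Type} [Fintype B] [DecidableEq B] {f : T → Matrix C C E}
    {g : T → Matrix B B E} {m : ℕ} {n : Fin m → ℕ}
    {F : ∀ i, Matrix (Fin (n i) → C) B E} (hF : ∀ i, Eqv g (pw f (n i)) (F i)) {N t : ℕ}
    (c : Fin t → Fin m) (e : (Σ s, Fin (n (c s))) ≃ Fin N) :
    Eqv (pw g t) (pw f N) (bigF F c e) := by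
  intro θ
  ext w u
  have h1 : (pw f N θ * bigF F c e) w u =
      (powM N (f θ) *ᵥ prodT e fun s v => F (c s) v (u s)) w := rfl
  rw [h1, powM_prodT]
  change ∏ s, (powM (n (c s)) (f θ) *ᵥ fun v => F (c s) v (u s)) (fun a => w (e ⟨s, a⟩)) =
    ∑ u' : Fin t → B, (∏ s, F (c s) (fun a => w (e ⟨s, a⟩)) (u' s)) * ∏ s, g θ (u' s) (u s)
  have h2 : ∀ s, (powM (n (c s)) (f θ) *ᵥ fun v => F (c s) v (u s)) (fun a => w (e ⟨s, a⟩)) =
      ∑ j, F (c s) (fun a => w (e ⟨s, a⟩)) j * g θ j (u s) :=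
    fun s => congrFun (congrFun (hF (c s) θ) fun a => w (e ⟨s, a⟩)) (u s)
  simp only [h2]
  rw [Finset.prod_univ_sum, Fintype.piFinset_univ]
  simp only [Finset.prod_mul_distrib]

theorem bigF_mulVec {B : Type} [Fintype B] {m : ℕ} {n : Fin m → ℕ}
    (F : ∀ i, Matrix (Fin (n i) → C) B E) {N t : ℕ}
    (c : Fin t → Fin m) (e : (Σ s, Fin (n (c s))) ≃ Fin N) (b : Fin t → B → E) :
    bigF F c e *ᵥ (fun u => ∏ s, b s (u s)) = prodT e fun s => F (c s) *ᵥ b s := by
  classical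
  funext w
  change ∑ u : Fin t → B, (∏ s, F (c s) (fun a => w (e ⟨s, a⟩)) (u s)) * ∏ s, b s (u s) =
    ∏ s, ∑ j, F (c s) (fun a => w (e ⟨s, a⟩)) j * b s j
  rw [Finset.prod_univ_sum]
  simp only [Fintype.piFinset_univ, Finset.prod_mul_distrib]

end blocks

end

end Pool.Agent.K4H35.TN
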