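import Mathlib
import Pool.Agent.K4H35.TN.Cover

/-!
# Noetherianity
-/

set_option linter.unusedSectionVars false

namespace Pool.Agent.K4H35.TN

open Matrix Module Pool.Agent.K4H35.ST

open scoped Kronecker

noncomputable section

variable {T E : Type} [Field E]

section gen

variable {C : Type} [Fintype C] [DecidableEq C]

/-- The combinations of the products of elements of the sets `Γ k`, `1 ≤ k ≤ K0`. -/
def GS (Γ : ∀ n, Set ((Fin n → C) → E)) (K0 n : ℕ) : Submodule E ((Fin n → C) → E) :=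
  Submodule.span E {y | ∃ (t : ℕ) (κ : Fin t → ℕ) (e : (Σ s, Fin (κ s)) ≃ Fin n)
    (b : ∀ s, (Fin (κ s) → C) → E), (∀ s, 1 ≤ κ s ∧ κ s ≤ K0 ∧ b s ∈ Γ (κ s)) ∧ y = prodT e b}

theorem mem_GS {Γ : ∀ n, Set ((Fin n → C) → E)} {K0 n : ℕ} {ι : Type} [Fintype ι]
    {κ : ι → ℕ} (e : (Σ s, Fin (κ s)) ≃ Fin n) (b : ∀ s, (Fin (κ s) → C) → E)
    (h : ∀ s, 1 ≤ κ s ∧ κ s ≤ K0 ∧ b s ∈ Γ (κ s)) : prodT e b ∈ GS Γ K0 n := by
  classical
  let f := Fintype.equivFin ι
  refine Submodule.subset_span ⟨Fintype.card ι, fun s => κ (f.symm s),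
    (Equiv.sigmaCongrLeft (β := fun s => Fin (κ s)) f.symm).trans e, fun s => b (f.symm s),
    fun s => h _, ?_⟩
  funext w
  exact (Equiv.prod_comp f.symm fun s => b s fun a => w (e ⟨s, a⟩)).symm

theorem pr_GS {Γ : ∀ n, Set ((Fin n → C) → E)} {K0 k l n : ℕ}
    (e : Fin k ⊕ Fin l ≃ Fin n) {b : (Fin k → C) → E} (hk1 : 1 ≤ k) (hk : k ≤ K0) (hb : b ∈ Γ k)
    {r : (Fin l → C) → E} (hr : r ∈ GS Γ K0 l) : pr e b r ∈ GS Γ K0 n := by
  refine Submodule.span_induction (p := fun r _ => pr e b r ∈ GS Γ K0 n) ?_ ?_ ?_ ?_ hr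
  · rintro _ ⟨t, κ, e0, b0, h1, rfl⟩
    have h2 : pr e b (prodT e0 b0) = prodT (optE e e0)
        (fun s : Option (Fin t) => match s with
          | none => b
          | some s => b0 s) := by
      funext w
      rw [pr_apply]
      change _ = ∏ s : Option (Fin t), _
      rw [Fintype.prod_option]
      rfl
    rw [h2]
    refine mem_GS _ _ ?_
    rintro (_ | s)
    · exact ⟨hk1, hk, hb⟩
    · exact h1 s
  · rw [map_zero]
    exact Submodule.zero_mem _
  · intro x y _ _ h1 h2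
    rw [map_add]
    exact Submodule.add_mem _ h1 h2
  · intro r x _ h1
    rw [map_smul]
    exact Submodule.smul_mem _ _ h1

/-- **Finite generation.** -/
theorem exists_GS {B N : ∀ n, Submodule E ((Fin n → C) → E)}
    (hB : ∀ {k l n : ℕ} (e : Fin k ⊕ Fin l ≃ Fin n), ∀ b ∈ B k, ∀ r ∈ B l, pr e b r ∈ B n)
    (hN : ∀ {k l n : ℕ} (e : Fin k ⊕ Fin l ≃ Fin n), ∀ b ∈ B k, ∀ r ∈ N l, pr e b r ∈ N n)
    (h0 : ∀ n, ∀ x ∈ B n, x ∈ N n → x = 0)
    (hsup : ∀ n (x : (Fin n → C) → E), ∃ b ∈ B n, ∃ y ∈ N n, x = b + y) :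
    ∃ K0 : ℕ, ∀ Γ : ∀ n, Set ((Fin n → C) → E),
      (∀ n, 1 ≤ n → n ≤ K0 → B n ≤ Submodule.span E (Γ n)) → ∀ n, B n ≤ GS Γ K0 n := by
  obtain ⟨K0, hK0⟩ := exists_PB hB hN h0 hsup
  refine ⟨K0, fun Γ hΓ n => ?_⟩
  induction n using Nat.strong_induction_on with
  | _ n ih =>
    intro x hx
    rcases Nat.eq_zero_or_pos n with rfl | hn
    · have h1 : x = x (fun i => i.elim0) • prodT (ι := Fin 0) (κ := fun s => s.elim0)
          (Equiv.equivOfIsEmpty _ _) (fun s => s.elim0) := by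
        funext w
        rw [Pi.smul_apply, smul_eq_mul]
        change x w = x _ * ∏ s : Fin 0, _
        rw [Finset.univ_eq_empty, Finset.prod_empty, mul_one]
        congr 1
        exact Subsingleton.elim _ _
      rw [h1]
      exact Submodule.smul_mem _ _ (mem_GS _ _ fun s => s.elim0)
    · refine (Submodule.span_le.2 ?_ : PB B K0 n ≤ GS Γ K0 n) (hK0 n hn x hx)
      rintro _ ⟨k, l, e, b, r, h1, h2, h3, h4, rfl⟩
      have h := Fintype.card_congr e
      rw [Fintype.card_sum, Fintype.card_fin, Fintype.card_fin, Fintype.card_fin] at h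
      have h5 := hΓ k h1 h2 h3
      refine Submodule.span_induction (p := fun b _ => pr e b r ∈ GS Γ K0 n) ?_ ?_ ?_ ?_ h5
      · exact fun b hb => pr_GS e h1 h2 hb (ih l (by omega) h4)
      · rw [← prB_apply, map_zero]
        exact Submodule.zero_mem _
      · intro x y _ _ h6 h7
        rw [← prB_apply] at h6 h7 ⊢
        rw [map_add]
        exact Submodule.add_mem _ h6 h7
      · intro c x _ h6
        rw [← prB_apply] at h6 ⊢
        rw [map_smul]
        exact Submodule.smul_mem _ _ h6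

end gen

section main

variable {S : Set (Cohomology T E)}

/-- The finitely many correspondences. -/
theorem exists_data (hne : S.Nonempty) (hSS : ∀ X ∈ S, IsSemisimple X ∧ IsDual X)
    (hS : ∀ X ∈ S, ∀ X' ∈ S, X.prod X' ∈ S) (Y : Cohomology T E) (K0 : ℕ) :
    ∃ B ∈ S, ∃ (m : ℕ) (n : Fin m → ℕ) (F : ∀ i, Matrix (Fin (n i) → Y.ι) B.ι E),
      (∀ i, 1 ≤ n i ∧ n i ≤ K0 ∧ Eqv B.act (pw Y.act (n i)) (F i)) ∧
      ∀ k, 1 ≤ k → k ≤ K0 → SP S (pw Y.act k) ≤ Submodule.span E {y | ∃ (i : Fin m)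
        (e : Fin (n i) ≃ Fin k) (b : B.ι → E), y = fun w => (F i *ᵥ b) fun a => w (e a)} := by
  classical
  have h1 : ∀ k : ℕ, ∃ R : Finset ((Fin k → Y.ι) → E),
      (∀ y ∈ R, ∃ A ∈ S, ∃ F : Matrix (Fin k → Y.ι) A.ι E, Eqv A.act (pw Y.act k) F ∧
        ∃ a, y = F *ᵥ a) ∧ SP S (pw Y.act k) = Submodule.span E (R : Set _) := by
    intro k
    have h2 : (SP S (pw Y.act k)).FG := IsNoetherian.noetherian _
    obtain ⟨R, hR, h3⟩ := (Submodule.fg_span_iff_fg_span_finset_subset _).1 h2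
    exact ⟨R, fun y hy => hR hy, h3⟩
  choose R hR hRs using h1
  let J : Type := Σ k : Fin K0, {y // y ∈ R (k.val + 1)}
  have h2 : ∀ j : J, ∃ A ∈ S, ∃ F : Matrix (Fin (j.1.val + 1) → Y.ι) A.ι E,
      Eqv A.act (pw Y.act (j.1.val + 1)) F ∧ ∃ a, j.2.1 = F *ᵥ a := fun j => hR _ _ j.2.2
  choose A hA F hF a ha using h2
  obtain ⟨B, hB, hcov⟩ := exists_cover hne hSS hS ((Finset.univ : Finset J).toList.map A)
    (fun X hX => by
      obtain ⟨j, -, rfl⟩ := List.mem_map.1 hX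
      exact hA j)
  have h3 : ∀ j : J, ∃ π : Matrix (A j).ι B.ι E, Eqv B.act (A j).act π ∧ ∀ a, ∃ b, π *ᵥ b = a :=
    fun j => hcov _ (List.mem_map.2 ⟨j, Finset.mem_toList.2 (Finset.mem_univ j), rfl⟩)
  choose π hπ hπs using h3
  let f := Fintype.equivFin J
  refine ⟨B, hB, Fintype.card J, fun i => (f.symm i).1.val + 1, fun i => F (f.symm i) *
    π (f.symm i), fun i => ⟨Nat.le_add_left _ _, (f.symm i).1.isLt, (hπ _).comp (hF _)⟩, ?_⟩
  intro k hk1 hk2
  rw [hRs]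
  refine Submodule.span_mono ?_
  intro y hy
  obtain ⟨k', rfl⟩ : ∃ k', k = k' + 1 := ⟨k - 1, by omega⟩
  let j : J := ⟨⟨k', by omega⟩, ⟨y, hy⟩⟩
  obtain ⟨b, hb⟩ := hπs j (a j)
  have hfj : (f.symm (f j)).1.val + 1 = k' + 1 := by rw [Equiv.symm_apply_apply]
  refine ⟨f j, finCongr hfj, b, ?_⟩
  have h4 : y = F j *ᵥ a j := ha j
  have h5 : ∀ j' : J, j' = j → ∀ (h : j'.1.val + 1 = k' + 1), y = fun w =>
      ((F j' * π j') *ᵥ (show B.ι → E from b)) fun a => w (finCongr h a) := by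
    rintro j' rfl h
    rw [h4, ← mulVec_mulVec, hb]
    rfl
  exact h5 _ (Equiv.symm_apply_apply f j) hfj

theorem transfer_eq {A B Y : Cohomology T E} {m : ℕ} {n : Fin m → ℕ}
    (F : ∀ i, Matrix (Fin (n i) → Y.ι) B.ι E) {N t : ℕ} (c : Fin t → Fin m)
    (e : (Σ s, Fin (n (c s))) ≃ Fin N) (G : A.ι × (Fin t → B.ι) → E) :
    transfer F c e G = ((1 : Matrix A.ι A.ι E) ⊗ₖ bigF F c e) *ᵥ G := by
  funext p
  change ∑ u, G (p.1, u) * ∏ s, F (c s) (fun a => p.2 (e ⟨s, a⟩)) (u s) =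
    ∑ q : A.ι × (Fin t → B.ι), ((1 : Matrix A.ι A.ι E) p.1 q.1 *
      ∏ s, F (c s) (fun a => p.2 (e ⟨s, a⟩)) (q.2 s)) * G q
  rw [Fintype.sum_prod_type, Finset.sum_eq_single p.1]
  · refine Finset.sum_congr rfl fun u _ => ?_
    rw [one_apply_eq, one_mul, mul_comm]
  · intro a _ ha
    refine Finset.sum_eq_zero fun u _ => ?_
    rw [one_apply_ne (Ne.symm ha), zero_mul, zero_mul]
  · intro h
    exact absurd (Finset.mem_univ _) h

/-- The bilinear form on the tensors. -/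
def fm {C : Type} [Fintype C] [DecidableEq C] (Q : Matrix C C E) (n : ℕ) :
    ((Fin n → C) → E) →ₗ[E] ((Fin n → C) → E) →ₗ[E] E :=
  LinearMap.mk₂ E (fun x y => x ⬝ᵥ (powM n Q *ᵥ y))
    (fun _ _ _ => add_dotProduct _ _ _) (fun _ _ _ => smul_dotProduct _ _ _)
    (fun _ _ _ => by rw [mulVec_add, dotProduct_add])
    (fun _ _ _ => by rw [mulVec_smul, dotProduct_smul])

theorem powM_det {C : Type} [Fintype C] [DecidableEq C] {Q : Matrix C C E} (hQ : Q.det ≠ 0)
    (n : ℕ) : (powM n Q).det ≠ 0 := by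
  have h1 : powM n Q * powM n Q⁻¹ = 1 := by
    rw [← powM_mul, Matrix.mul_nonsing_inv _ (isUnit_iff_ne_zero.2 hQ), powM_one]
  exact (Matrix.isUnit_det_of_right_inverse h1).ne_zero

/-- **Noetherianity.** -/
theorem main (hne : S.Nonempty) (hSS : ∀ X ∈ S, IsSemisimple X ∧ IsDual X)
    (hS : ∀ X ∈ S, ∀ X' ∈ S, X.prod X' ∈ S) (hSp : ∀ X ∈ S, ∀ n, X.pow n ∈ S)
    (Y : Cohomology T E) (hY : IsDual Y) (hYs : ∀ n, IsSemisimple (Y.pow n)) :
    ∃ B ∈ S, ∃ (m : ℕ) (n : Fin m → ℕ) (F : ∀ i, Matrix (Fin (n i) → Y.ι) B.ι E),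
      (∀ i, 1 ≤ n i ∧ IsCorrespondence B (Y.pow (n i)) (F i)) ∧
      ∀ A ∈ S, ∀ (N : ℕ) (x : A.ι × (Fin N → Y.ι) → E), IsTate (A.prod (Y.pow N)) x ↔
        x ∈ transferredClasses A B Y F N := by
  obtain ⟨Q, hQd, hQ⟩ := hY.form
  have hss : ∀ n, SS fun θ => (pw Y.act n θ).mulVecLin := fun n => (hYs n).ss
  have hnd : ∀ (n : ℕ) (x : (Fin n → Y.ι) → E), x ∈ SP S (pw Y.act n) →
      (∀ y ∈ SP S (pw Y.act n), fm Q n x y = 0) → x = 0 := by
    intro n x hx h
    exact nondeg_SP (hss n) (powM_det hQd n) (fun θ => powM_inv (hQ θ) n) hSS hx h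
  let NN : ∀ n, Submodule E ((Fin n → Y.ι) → E) := fun n =>
    { carrier := {x | ∀ y ∈ SP S (pw Y.act n), fm Q n x y = 0}
      zero_mem' := fun y _ => by rw [map_zero, LinearMap.zero_apply]
      add_mem' := fun {a b} ha hb y hy => by
        rw [map_add, LinearMap.add_apply, ha y hy, hb y hy, add_zero]
      smul_mem' := fun r x hx y hy => by
        rw [map_smul, LinearMap.smul_apply, hx y hy, smul_zero] }
  obtain ⟨K0, hK0⟩ := exists_GS (B := fun n => SP S (pw Y.act n)) (N := NN)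
    (fun e b hb r hr => pr_SP hS e hb hr)
    (fun e b hb x hx y hy => by
      change pr e b x ⬝ᵥ _ = 0
      rw [dot_pr]
      exact hx _ (contr_SP hS hQ e hb hy))
    (fun n x hx h => hnd n x hx h)
    (fun n x => by
      obtain ⟨b, hb, h⟩ := exists_split (fm Q n) (SP S (pw Y.act n)) (fun x hx h => hnd n x hx h) x
      exact ⟨b, hb, x - b, h, (add_sub_cancel _ _).symm⟩)
  obtain ⟨B, hB, m, n, F, hF, hgen⟩ := exists_data hne hSS hS Y K0
  refine ⟨B, hB, m, n, F, fun i => ⟨(hF i).1, (hF i).2.2⟩, ?_⟩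
  have hGS := hK0 (fun k => {y | ∃ (i : Fin m) (e : Fin (n i) ≃ Fin k) (b : B.ι → E),
    y = fun w => (F i *ᵥ b) fun a => w (e a)}) hgen
  have hmor : ∀ {N t : ℕ} (c : Fin t → Fin m) (e : (Σ s, Fin (n (c s))) ≃ Fin N),
      Eqv (pw B.act t) (pw Y.act N) (bigF F c e) := fun c e => eqv_bigF (fun i => (hF i).2.2) c e
  intro A hA N x
  obtain ⟨AN, hAN⟩ : ∃ AN : T → Matrix (A.ι × (Fin N → Y.ι)) (A.ι × (Fin N → Y.ι)) E,
    AN = fun θ => A.act θ ⊗ₖ pw Y.act N θ := ⟨_, rfl⟩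
  have hTate : ∀ x : A.ι × (Fin N → Y.ι) → E, IsTate (A.prod (Y.pow N)) x ↔
      ∀ θ, AN θ *ᵥ x = x := by
    rw [hAN]
    exact fun x => Iff.rfl
  have hkr : ∀ {t : ℕ} (c : Fin t → Fin m) (e : (Σ s, Fin (n (c s))) ≃ Fin N)
      (θ : T) (G : A.ι × (Fin t → B.ι) → E),
      ((1 : Matrix A.ι A.ι E) ⊗ₖ bigF F c e) *ᵥ ((A.act θ ⊗ₖ pw B.act t θ) *ᵥ G) =
        AN θ *ᵥ (((1 : Matrix A.ι A.ι E) ⊗ₖ bigF F c e) *ᵥ G) := by
    rw [hAN]
    exact fun c e θ G => ((Eqv.one A.act).kron (hmor c e)).mulVec θ G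
  rw [hTate]
  have hTH : ∀ y ∈ transferredClasses A B Y F N, ∀ θ, AN θ *ᵥ y = y := by
    intro y hy θ
    refine Submodule.span_induction (p := fun y _ => AN θ *ᵥ y = y)
      ?_ ?_ ?_ ?_ hy
    · rintro _ ⟨t, c, e, G, hG, rfl⟩
      have hG' : (A.act θ ⊗ₖ pw B.act t θ) *ᵥ G = G := hG θ
      rw [transfer_eq, ← hkr c e θ G, hG']
    · exact mulVec_zero _
    · intro y z _ _ hy hz
      rw [mulVec_add, hy, hz]
    · intro r y _ hy
      rw [mulVec_smul, hy]
  refine ⟨fun hx => ?_, fun hx => hTH x hx⟩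
  obtain ⟨QA, hQAd, hQA⟩ := (hSS A hA).2.form
  -- the columns
  have hcol : ∀ a, (fun w => x (a, w)) ∈ SP S (pw Y.act N) := by
    intro a
    let X : Matrix A.ι (Fin N → Y.ι) E := Matrix.of fun a w => x (a, w)
    have h1 : ∀ θ, A.act θ * X * (pw Y.act N θ)ᵀ = X := by
      intro θ
      ext a w
      have h2 := congrFun (hx θ) (a, w)
      rw [hAN] at h2
      change ∑ q : A.ι × (Fin N → Y.ι), (A.act θ a q.1 * pw Y.act N θ w q.2) * x q = x (a, w) at h2
      rw [Fintype.sum_prod_type, Finset.sum_comm] at h2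
      change ∑ w', (∑ b, A.act θ a b * x (b, w')) * pw Y.act N θ w w' = x (a, w)
      rw [← h2]
      refine Finset.sum_congr rfl fun w' _ => ?_
      rw [Finset.sum_mul]
      exact Finset.sum_congr rfl fun b _ => by ring
    have h2 : Eqv A.act (pw Y.act N) (Xᵀ * QA) := by
      intro θ
      have h3 := congrArg Matrix.transpose (h1 θ)
      rw [transpose_mul, transpose_mul, transpose_transpose] at h3
      have h4 : Xᵀ * QA * A.act θ = pw Y.act N θ * Xᵀ * ((A.act θ)ᵀ * QA * A.act θ) := by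
        conv_lhs => rw [← h3]
        simp only [Matrix.mul_assoc]
      rw [h4, hQA θ, Matrix.mul_assoc]
    have h3 : (fun w => x (a, w)) = (Xᵀ * QA) *ᵥ (QA⁻¹ *ᵥ Pi.single a 1) := by
      rw [mulVec_mulVec, Matrix.mul_assoc, Matrix.mul_nonsing_inv _ (isUnit_iff_ne_zero.2 hQAd),
        Matrix.mul_one, mulVec_single_one]
      rfl
    rw [h3]
    exact mem_SP hA h2 _
  -- all classes
  let P : Submodule E (A.ι × (Fin N → Y.ι) → E) := Submodule.span E {y | ∃ (t : ℕ)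
    (c : Fin t → Fin m) (e : (Σ s, Fin (n (c s))) ≃ Fin N) (G : A.ι × (Fin t → B.ι) → E),
    y = ((1 : Matrix A.ι A.ι E) ⊗ₖ bigF F c e) *ᵥ G}
  have hdel : ∀ (a : A.ι) (y : (Fin N → Y.ι) → E), y ∈ SP S (pw Y.act N) →
      (fun p : A.ι × (Fin N → Y.ι) => if p.1 = a then y p.2 else 0) ∈ P := by
    intro a y hy
    let L : ((Fin N → Y.ι) → E) →ₗ[E] (A.ι × (Fin N → Y.ι) → E) :=
      { toFun := fun y p => if p.1 = a then y p.2 else 0
        map_add' := fun y y' => by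
          funext p
          change (if p.1 = a then y p.2 + y' p.2 else 0) =
            (if p.1 = a then y p.2 else 0) + if p.1 = a then y' p.2 else 0
          split_ifs
          · rfl
          · rw [add_zero]
        map_smul' := fun r y => by
          funext p
          change (if p.1 = a then r * y p.2 else 0) = r * if p.1 = a then y p.2 else 0
          split_ifs
          · rfl
          · rw [mul_zero] }
    have h1 := hGS N hy
    have h2 : GS (fun k => {y | ∃ (i : Fin m) (e : Fin (n i) ≃ Fin k) (b : B.ι → E),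
        y = fun w => (F i *ᵥ b) fun a => w (e a)}) K0 N ≤ P.comap L := by
      refine Submodule.span_le.2 ?_
      rintro _ ⟨t, κ, e, b, hb, rfl⟩
      have h3 : ∀ s, ∃ (i : Fin m) (e : Fin (n i) ≃ Fin (κ s)) (b' : B.ι → E),
        b s = fun w => (F i *ᵥ b') fun a => w (e a) := fun s => (hb s).2.2
      choose c e' b' hb' using h3
      let e'' : (Σ s, Fin (n (c s))) ≃ Fin N := (Equiv.sigmaCongrRight e').trans e
      have h4 : prodT e b = bigF F c e'' *ᵥ fun u => ∏ s, b' s (u s) := by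
        rw [bigF_mulVec]
        funext w
        refine Finset.prod_congr rfl fun s _ => ?_
        rw [hb' s]
        rfl
      change L (prodT e b) ∈ P
      refine Submodule.subset_span ⟨t, c, e'',
        fun p => if p.1 = a then ∏ s, b' s (p.2 s) else 0, ?_⟩
      rw [h4]
      funext p
      change (if p.1 = a then ∑ u, bigF F c e'' p.2 u * ∏ s, b' s (u s) else 0) =
        ∑ q : A.ι × (Fin t → B.ι), ((1 : Matrix A.ι A.ι E) p.1 q.1 * bigF F c e'' p.2 q.2) *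
          if q.1 = a then ∏ s, b' s (q.2 s) else 0
      rw [Fintype.sum_prod_type, Finset.sum_eq_single p.1]
      · split_ifs with hp
        · refine Finset.sum_congr rfl fun u _ => ?_
          rw [one_apply_eq, one_mul]
        · refine (Finset.sum_eq_zero fun u _ => ?_).symm
          rw [mul_zero]
      · intro q _ hq
        refine Finset.sum_eq_zero fun u _ => ?_
        rw [one_apply_ne (Ne.symm hq), zero_mul, zero_mul]
      · intro h
        exact absurd (Finset.mem_univ _) h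
    exact h2 h1
  have hxP : x ∈ P := by
    have h1 : x = ∑ a, fun p : A.ι × (Fin N → Y.ι) => if p.1 = a then x (a, p.2) else 0 := by
      funext p
      rw [Finset.sum_apply, Finset.sum_ite_eq Finset.univ p.1, if_pos (Finset.mem_univ _)]
    rw [h1]
    exact Submodule.sum_mem _ fun a _ => hdel a _ (hcol a)
  -- the invariant parts
  have hdec : ∀ y ∈ P, ∃ (U : Type) (_ : AddCommGroup U) (_ : Module E U) (g : T → U →ₗ[E] U)
      (Φ : U →ₗ[E] (A.ι × (Fin N → Y.ι) → E)), SS g ∧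
      (∀ θ u, Φ (g θ u) = AN θ *ᵥ Φ u) ∧
      (∀ u, (∀ θ, g θ u = u) → Φ u ∈ transferredClasses A B Y F N) ∧ ∃ u, Φ u = y := by
    intro y hy
    refine Submodule.span_induction (p := fun y _ => ∃ (U : Type) (_ : AddCommGroup U)
      (_ : Module E U) (g : T → U →ₗ[E] U)
      (Φ : U →ₗ[E] (A.ι × (Fin N → Y.ι) → E)), SS g ∧
      (∀ θ u, Φ (g θ u) = AN θ *ᵥ Φ u) ∧
      (∀ u, (∀ θ, g θ u = u) → Φ u ∈ transferredClasses A B Y F N) ∧ ∃ u, Φ u = y)
      ?_ ?_ ?_ ?_ hy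
    · rintro _ ⟨t, c, e, G, rfl⟩
      refine ⟨A.ι × (Fin t → B.ι) → E, inferInstance, inferInstance,
        fun θ => (A.act θ ⊗ₖ pw B.act t θ).mulVecLin,
        (((1 : Matrix A.ι A.ι E) ⊗ₖ bigF F c e)).mulVecLin,
        (hSS _ (hS A hA _ (hSp B hB t))).1.ss, fun θ u => hkr c e θ u, fun u hu => ?_, G, rfl⟩
      refine Submodule.subset_span ⟨t, c, e, u, hu, ?_⟩
      rw [transfer_eq]
      rfl
    · refine ⟨PUnit, inferInstance, inferInstance, fun _ => 0, 0, fun U _ => ⟨⊤, fun _ _ _ =>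
        Submodule.mem_top, ?_⟩, fun θ u => ?_, fun u _ => ?_, PUnit.unit, rfl⟩
      · exact isCompl_mk (fun x _ _ => rfl) fun x => ⟨0, U.zero_mem, x, Submodule.mem_top,
          (zero_add x).symm⟩
      · rw [LinearMap.zero_apply, mulVec_zero]
      · exact Submodule.zero_mem _
    · rintro y y' _ _ ⟨U, _, _, g, Φ, h1, h2, h3, u, hu⟩ ⟨U', _, _, g', Φ', h1', h2', h3', u', hu'⟩
      refine ⟨U × U', inferInstance, inferInstance, fun θ => (g θ).prodMap (g' θ),
        Φ.coprod Φ', h1.prod h1', fun θ p => ?_, fun p hp => ?_, (u, u'), ?_⟩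
      · change Φ (g θ p.1) + Φ' (g' θ p.2) = _ *ᵥ (Φ p.1 + Φ' p.2)
        rw [h2, h2', mulVec_add]
      · exact Submodule.add_mem _ (h3 p.1 fun θ => congrArg Prod.fst (hp θ))
          (h3' p.2 fun θ => congrArg Prod.snd (hp θ))
      · change Φ u + Φ' u' = _
        rw [hu, hu']
    · rintro r y _ ⟨U, _, _, g, Φ, h1, h2, h3, u, hu⟩
      exact ⟨U, _, _, g, Φ, h1, h2, h3, r • u, by rw [map_smul, hu]⟩
  obtain ⟨U, _, _, g, Φ, h1, h2, h3, u, hu⟩ := hdec x hxP
  obtain ⟨v, hv, h4⟩ := exists_inv (g := fun θ => (AN θ).mulVecLin) h1 h2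
    (x := u) fun θ => by
      rw [hu]
      exact hx θ
  rw [← hu, ← h4]
  exact h3 v hv

end main

end

end Pool.Agent.K4H35.TN
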